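import Mathlib

namespace Pool.Agent.Results.MP_faaf88_co.Yes

open Classical

/-- A cubic graph with multiple edges, loops and semi-edges: `D` is the set of edge-ends, `v d` the
vertex carrying the end `d`, and `inv d` the other end of the same edge (`inv d = d` for a
semi-edge). It is 3-edge-colourable if the edges (orbits of `inv`) can be coloured so that the
ends at a vertex get distinct colours. -/
def Colourable {V D : Type} (v : D → V) (inv : D → D) : Prop :=
  ∃ c : D → Fin 3, (∀ d, c (inv d) = c d) ∧ ∀ d d', v d = v d' → c d = c d' → d = d'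

/-- The simple graph `H` covers the graph `(v, inv)`. -/
def Covers {X V D : Type} (H : SimpleGraph X) (v : D → V) (inv : D → D) : Prop :=
  ∃ (f : X → V) (g : H.Dart → D),
    (∀ x, Set.BijOn g {a | a.fst = x} {d | v d = f x}) ∧ ∀ a, g a.symm = inv (g a)

/-- Proper 3-edge-colourability of a simple graph. -/
def EdgeColourable {X : Type} (H : SimpleGraph X) : Prop :=
  ∃ c : Sym2 X → Fin 3, ∀ x y z, H.Adj x y → H.Adj x z → c s(x, y) = c s(x, z) → y = z

/-- 2-connected: at least three vertices, connected, and connected after deleting any vertex. -/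
def TwoConnected {X : Type} (H : SimpleGraph X) : Prop :=
  3 ≤ Nat.card X ∧ H.Connected ∧ ∀ r, (H.induce {x | x ≠ r}).Connected

abbrev Dt (W : Type) := W × Fin 3

def NoSemi {W : Type} (t : Dt W → Dt W) : Prop := ∀ d, t d ≠ d
def Col {W : Type} (t : Dt W → Dt W) : Prop :=
  ∃ c : Dt W → Fin 3, (∀ d, c (t d) = c d) ∧ ∀ w i j, c (w, i) = c (w, j) → i = j
def Conn {W : Type} (t : Dt W → Dt W) : Prop :=
  ∀ χ : W → Bool, (∀ d, χ d.1 = χ (t d).1) → ∀ x y, χ x = χ y
def NoBr {W : Type} (t : Dt W → Dt W) : Prop :=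
  ∀ (χ : W → Bool) (d0 : Dt W), (∀ d, d ≠ d0 → d ≠ t d0 → χ d.1 = χ (t d).1) → ∀ x y, χ x = χ y
def Cov {X W : Type} (s : Dt X → Dt X) (t : Dt W → Dt W) (p : X → W) : Prop :=
  ∀ d, t (p d.1, d.2) = (p (s d).1, (s d).2)
def Simp {W : Type} (t : Dt W → Dt W) : Prop :=
  (∀ d, (t d).1 ≠ d.1) ∧ ∀ w i j, (t (w, i)).1 = (t (w, j)).1 → i = j

structure Pieces {X W : Type} (s : Dt X → Dt X) (t : Dt W → Dt W) where
  pr : X → W
  port : Dt W → Dt X
  hpr : ∀ d, pr (port d).1 = d.1
  hport : ∀ d, s (port d) = port (t d)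
  inj : Function.Injective port
  hint : ∀ d, (∀ e, d ≠ port e) → pr (s d).1 = pr d.1
  clo : ∀ w (χ : X → Bool) (β : Bool) (d0 : Dt X),
    (∀ d, pr d.1 = w → (∀ e, d ≠ port e) → d ≠ d0 → d ≠ s d0 → χ d.1 = χ (s d).1) →
    (∀ k, port (w, k) ≠ d0 → χ (port (w, k)).1 = β) → ∀ x, pr x = w → χ x = β

def kap : Fin 3 → ZMod 2 × ZMod 2 := ![(1, 0), (0, 1), (1, 1)]

theorem kap1 : ∀ g : Fin 3 → Fin 3, (∀ i j, g i = g j → i = j) ↔ ∑ i, kap (g i) = 0 := by
  decide

theorem kap2 : ∀ a : Fin 3, kap a + kap a = 0 := by decide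

theorem maj : ∀ g : Fin 3 → Bool, ∃ k β, ∀ j, j ≠ k → g j = β := by decide

theorem Pieces.col {X W : Type} [Fintype X] {s : Dt X → Dt X} {t : Dt W → Dt W} (P : Pieces s t)
    (hs : Function.Involutive s) (hn : NoSemi s) (hc : Col s) : Col t := by
  obtain ⟨c, hc1, hc2⟩ := hc
  refine ⟨fun e => c (P.port e), fun e => by simp only [← P.hport, hc1], fun w => ?_⟩
  refine (kap1 (fun k => c (P.port (w, k)))).2 ?_
  have h1 : ∑ d ∈ Finset.univ.filter (fun d : Dt X => P.pr d.1 = w), kap (c d) = 0 := by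
    rw [Finset.sum_filter, Fintype.sum_prod_type]
    refine Finset.sum_eq_zero fun x _ => ?_
    by_cases hx : P.pr x = w
    · simp only [hx, if_true]
      exact (kap1 (fun k => c (x, k))).1 (hc2 x)
    · simp [hx]
  have hnp : ∀ d, (∀ e, d ≠ P.port e) → ∀ e, s d ≠ P.port e := by
    intro d hd e he
    exact hd (t e) (by rw [← P.hport, ← he, hs])
  rw [← Finset.sum_filter_add_sum_filter_not _ (fun d => ∀ e, d ≠ P.port e)] at h1
  have h2 : ∑ d ∈ (Finset.univ.filter (fun d : Dt X => P.pr d.1 = w)).filter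
      (fun d => ∀ e, d ≠ P.port e), kap (c d) = 0 := by
    refine Finset.sum_involution (fun d _ => s d) ?_ ?_ ?_ ?_
    · intro d _; rw [hc1]; exact kap2 _
    · intro d _ _; exact hn d
    · intro d hd
      simp only [Finset.mem_filter, Finset.mem_univ, true_and] at hd ⊢
      exact ⟨(P.hint d hd.2).trans hd.1, hnp d hd.2⟩
    · intro d _; exact hs d
  rw [h2, zero_add] at h1
  rw [← h1]
  refine Finset.sum_bij (fun k _ => P.port (w, k)) ?_ ?_ ?_ ?_
  · intro k _
    simp only [Finset.mem_filter, Finset.mem_univ, true_and]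
    exact ⟨P.hpr _, fun h => h _ rfl⟩
  · intro a _ b _ h
    simpa using P.inj h
  · intro d hd
    simp only [Finset.mem_filter, Finset.mem_univ, true_and, not_forall, not_not] at hd
    obtain ⟨h1, e, rfl⟩ := hd
    rw [P.hpr] at h1
    exact ⟨e.2, Finset.mem_univ _, by rw [← h1]⟩
  · intro k _; rfl

theorem Pieces.nobr {X W : Type} {s : Dt X → Dt X} {t : Dt W → Dt W} (P : Pieces s t)
    (hs : Function.Involutive s) (ht : Function.Involutive t) (hn : NoSemi t) (hb : NoBr t) :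
    NoBr s := by
  intro χ d0 h
  choose k β hk using fun w => maj (fun j => χ (P.port (w, j)).1)
  have hcl : ∀ w, (∀ d, P.pr d.1 = w → (∀ e, d ≠ P.port e) → χ d.1 = χ (s d).1) →
      ∀ x, P.pr x = w → χ x = β w := by
    intro w hw
    refine P.clo w χ (β w) (P.port (w, k w)) (fun d h1 h2 _ _ => hw d h1 h2) ?_
    intro j hj
    exact hk w j (fun e => hj (by rw [e]))
  by_cases h0 : ∃ e0, d0 = P.port e0
  · obtain ⟨e0, rfl⟩ := h0
    have h1 : ∀ x, χ x = β (P.pr x) := fun x =>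
      hcl _ (fun d _ h2 => h d (h2 _) (by rw [P.hport]; exact h2 _)) x rfl
    have h2 := hb β e0 (fun e he he' => by
      have := h (P.port e) (fun q => he (P.inj q)) (fun q => he' (P.inj (by rwa [P.hport] at q)))
      rwa [P.hport, h1, h1, P.hpr, P.hpr] at this)
    intro x y
    rw [h1, h1]; exact h2 _ _
  · push Not at h0
    have hp : ∀ e, χ (P.port e).1 = χ (P.port (t e)).1 := by
      intro e
      rw [← P.hport]
      refine h _ (fun q => h0 e q.symm) (fun q => h0 (t e) ?_)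
      rw [← P.hport, q, hs]
    have h1 : ∀ x, P.pr x ≠ P.pr d0.1 → χ x = β (P.pr x) := fun x hx =>
      hcl _ (fun d h1 _ => h d (fun q => hx (by rw [← h1, q]))
        (fun q => hx (by rw [← h1, q, P.hint _ h0]))) x rfl
    set w0 := P.pr d0.1 with hw0
    have h2 : ∀ e, e ≠ (w0, k w0) → χ (P.port e).1 = β e.1 := by
      rintro ⟨w, j⟩ he
      by_cases hw : w = w0
      · subst hw
        exact hk _ j (fun q => he (by rw [q]))
      · have := h1 (P.port (w, j)).1 (by rw [P.hpr]; exact hw)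
        rwa [P.hpr] at this
    have h3 := hb β (w0, k w0) (fun e he he' => by
      rw [← h2 e he, hp, h2 (t e) (fun q => he' (by rw [← q, ht]))])
    have h4 : ∀ x, P.pr x = w0 → χ x = β w0 := by
      refine P.clo w0 χ (β w0) d0 (fun d _ _ h5 h6 => h d h5 h6) ?_
      intro j _
      by_cases hj : j = k w0
      · rw [hj, hp, h2 _ (hn _)]; exact h3 _ _
      · exact hk _ j hj
    have h5 : ∀ x, χ x = β (P.pr x) := by
      intro x
      by_cases hx : P.pr x = w0
      · rw [hx]; exact h4 x hx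
      · exact h1 x hx
    intro x y
    rw [h5, h5]; exact h3 _ _

def Bd1 {W : Type} (t : Dt W → Dt W) (S : Finset W) (e : Dt W) : Prop :=
  e.1 ∈ S ∧ (t e).1 ∉ S ∧ ∀ a, a.1 ∈ S → (t a).1 ∉ S → a = e

theorem minimal {W : Type} {t : Dt W → Dt W} (ht : Function.Involutive t)
    (h : ∃ S e, Bd1 t S e) : ∃ S e, Bd1 t S e ∧ ∀ T ⊆ S, T.Nonempty → T ≠ S →
      ∀ δ, ¬ ∀ a : Dt W, a.1 ∈ T → (t a).1 ∉ T → a = δ ∨ a = t δ := by
  have hex : ∃ n, ∃ S e, Bd1 t S e ∧ S.card = n := by
    obtain ⟨S, e, h⟩ := h; exact ⟨_, S, e, h, rfl⟩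
  obtain ⟨S, e, hS, hc⟩ := Nat.find_spec hex
  have hmin : ∀ T e', Bd1 t T e' → S.card ≤ T.card := fun T e' h' =>
    hc ▸ Nat.find_min' hex ⟨T, e', h', rfl⟩
  refine ⟨S, e, hS, fun T hT hne hTS δ hδ => ?_⟩
  by_cases hb : ∃ a : Dt W, a.1 ∈ T ∧ (t a).1 ∉ T
  · obtain ⟨a, ha1, ha2⟩ := hb
    have : Bd1 t T a := ⟨ha1, ha2, fun b hb1 hb2 => by
      rcases hδ a ha1 ha2 with h1 | h1 <;> rcases hδ b hb1 hb2 with h2 | h2
      · rw [h1, h2]
      · exact absurd (by rw [h1, ← h2]; exact hb1) ha2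
      · exact absurd (by rw [h2, ← h1]; exact ha1) hb2
      · rw [h1, h2]⟩
    have h1 := hmin T a this
    exact hTS (Finset.eq_of_subset_of_card_le hT h1)
  · push Not at hb
    have : Bd1 t (S \ T) e := by
      refine ⟨Finset.mem_sdiff.2 ⟨hS.1, fun q => hS.2.1 (hT (hb e q))⟩,
        fun q => hS.2.1 (Finset.mem_sdiff.1 q).1, fun a h1 h2 => ?_⟩
      rw [Finset.mem_sdiff] at h1 h2
      refine hS.2.2 a h1.1 (fun q => h2 ⟨q, fun q' => h1.2 ?_⟩)
      have := hb (t a) q'
      rwa [ht] at this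
    have h1 := hmin _ e this
    have h2 := Finset.card_sdiff_add_card_eq_card hT
    have h3 := hne.card_pos
    omega

theorem other (i : Fin 3) : ∃ j, j ≠ i := ⟨i + 1, by revert i; decide⟩

theorem nobr_of {W : Type} [Fintype W] {t : Dt W → Dt W}
    (hc : Conn t) (h : ¬ ∃ S e, Bd1 t S e) (ht : Function.Involutive t) : NoBr t := by
  intro χ d0 hχ
  have h0 : χ d0.1 = χ (t d0).1 := by
    by_contra q
    refine h ⟨Finset.univ.filter (fun x => χ x = χ d0.1), d0, by simp, by simpa using Ne.symm q, ?_⟩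
    intro a h1 h2
    simp only [Finset.mem_filter, Finset.mem_univ, true_and] at h1 h2
    by_contra ha
    refine h2 (((hχ a ha (fun q' => q ?_)).symm.trans h1))
    rw [← h1, q']
  refine hc χ (fun d => ?_)
  by_cases h1 : d = d0
  · rw [h1]; exact h0
  by_cases h2 : d = t d0
  · rw [h2, ht]; exact h0.symm
  exact hχ d h1 h2

/-! The auxiliary simple bridgeless cover. -/

section B
variable {V : Type} [Fintype V] (t : Dt V → Dt V)

noncomputable def volt (δ : Dt V) : Dt V → ZMod 3 := Pi.single δ 1 - Pi.single (t δ) 1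

noncomputable def tU (d : Dt (V × (Dt V → ZMod 3))) : Dt (V × (Dt V → ZMod 3)) :=
  (((t (d.1.1, d.2)).1, d.1.2 + volt t (d.1.1, d.2)), (t (d.1.1, d.2)).2)

variable {t}

theorem volt_self (hn : NoSemi t) (δ : Dt V) : volt t δ δ = 1 := by
  simp [volt, Pi.single_eq_of_ne (hn δ).symm]

theorem volt_inv (ht : Function.Involutive t) (δ : Dt V) : volt t (t δ) = - volt t δ := by
  simp [volt, ht δ]

theorem volt_ne {δ ε : Dt V} (ht : Function.Involutive t) (h1 : ε ≠ δ) (h2 : ε ≠ t δ) :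
    volt t ε δ = 0 := by
  have h3 : δ ≠ t ε := fun q => h2 (by rw [q, ht])
  simp [volt, Pi.single_eq_of_ne h1.symm, Pi.single_eq_of_ne h3]

theorem tU_inv (ht : Function.Involutive t) : Function.Involutive (tU t) := by
  rintro ⟨⟨u, z⟩, i⟩
  simp only [tU, Prod.mk.eta, ht (u, i), volt_inv ht]
  simp

theorem tU_simp (ht : Function.Involutive t) (hn : NoSemi t) : Simp (tU t) := by
  constructor
  · rintro ⟨⟨u, z⟩, i⟩ h
    simp only [tU, Prod.mk.injEq, add_eq_left] at h
    have := congrFun h.2 (u, i)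
    rw [volt_self hn, Pi.zero_apply] at this
    exact (by decide : (1 : ZMod 3) ≠ 0) this
  · rintro ⟨u, z⟩ i j h
    simp only [tU, Prod.mk.injEq, add_right_inj] at h
    by_contra hij
    have h1 := congrFun h.2 (u, i)
    rw [volt_self hn] at h1
    by_cases h2 : (u, j) = t (u, i)
    · rw [h2, volt_inv ht, Pi.neg_apply, volt_self hn] at h1
      exact absurd h1 (by decide)
    · rw [volt_ne ht (fun q => hij (by simpa using q.symm)) h2] at h1
      exact absurd h1 (by decide)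

theorem tU_nobd (ht : Function.Involutive t) (hn : NoSemi t) : ¬ ∃ S e, Bd1 (tU t) S e := by
  intro h
  obtain ⟨S, e, hS, hmin⟩ := minimal (tU_inv ht) h
  have hinj : ∀ u z z', (u, z) ∈ S → (u, z') ∈ S → z = z' := by
    intro u z z' h1 h2
    by_contra hne
    let sh : V × (Dt V → ZMod 3) → V × (Dt V → ZMod 3) := fun y => (y.1, y.2 + (z' - z))
    have hsh : Function.Injective sh := by
      rintro ⟨a, b⟩ ⟨a', b'⟩ q
      simpa [sh] using q
    have hcomm : ∀ d : Dt (V × (Dt V → ZMod 3)), (tU t (sh d.1, d.2)).1 = sh (tU t d).1 := by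
      intro d; simp only [tU, sh, Prod.mk.injEq, true_and]; ring
    have hS' : ∀ a : Dt (V × (Dt V → ZMod 3)), a.1 ∈ S.image sh → (tU t a).1 ∉ S.image sh →
        a = (sh e.1, e.2) := by
      rintro ⟨y, i⟩ h3 h4
      obtain ⟨y', hy', rfl⟩ := Finset.mem_image.1 h3
      have := hS.2.2 (y', i) hy' (fun q => h4 (Finset.mem_image.2 ⟨_, q, (hcomm (y', i)).symm⟩))
      rw [← this]
    have hm : (u, z') ∈ S.image sh := Finset.mem_image.2 ⟨(u, z), h1, by simp [sh]⟩
    by_cases he : e.1 ∈ S.image sh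
    · have hsub : S ⊆ S.image sh := by
        by_contra hsub
        refine hmin (S \ S.image sh) Finset.sdiff_subset (Finset.sdiff_nonempty.2 hsub)
          (fun q => ?_) (sh e.1, e.2) (fun a h3 h4 => ?_)
        · rw [← q] at h2; exact (Finset.mem_sdiff.1 h2).2 hm
        · rw [Finset.mem_sdiff] at h3 h4
          by_cases h5 : (tU t a).1 ∈ S
          · have h6 : (tU t a).1 ∈ S.image sh := by by_contra q; exact h4 ⟨h5, q⟩
            have := hS' (tU t a) h6 (by rw [tU_inv ht]; exact h3.2)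
            right; rw [← this, tU_inv ht]
          · exact absurd (hS.2.2 a h3.1 h5 ▸ he) h3.2
      have heq : S = S.image sh :=
        Finset.eq_of_subset_of_card_le hsub (Finset.card_image_le)
      have := hS' e he (heq ▸ hS.2.1)
      have h7 := congrArg (fun d => d.1.2) this
      simp only [sh, left_eq_add, sub_eq_zero] at h7
      exact hne h7.symm
    · refine hmin (S ∩ S.image sh) Finset.inter_subset_left ⟨_, Finset.mem_inter.2 ⟨h2, hm⟩⟩
        (fun q => he (Finset.mem_inter.1 (q.symm ▸ hS.1)).2) (sh e.1, e.2) (fun a h3 h4 => ?_)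
      rw [Finset.mem_inter] at h3 h4
      by_cases h5 : (tU t a).1 ∈ S
      · exact Or.inl (hS' a h3.2 (fun q => h4 ⟨h5, q⟩))
      · exact absurd (hS.2.2 a h3.1 h5 ▸ h3.2) he
  obtain ⟨⟨u, z⟩, i0⟩ := e
  obtain ⟨i, hi⟩ := other i0
  have hy : (tU t ((u, z), i)).1 ∈ S := by
    by_contra q
    exact hi (by simpa using hS.2.2 ((u, z), i) hS.1 q)
  have hφ : (tU t ((u, z), i)).1.2 (u, i) ≠ z (u, i) := by
    simp only [tU, Pi.add_apply, volt_self hn]
    simp
  refine hmin (S.filter (fun y => y.2 (u, i) ≠ z (u, i))) (Finset.filter_subset _ _)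
    ⟨_, Finset.mem_filter.2 ⟨hy, hφ⟩⟩ (fun q => ?_) ((u, z), i) ?_
  · have := hS.1
    rw [← q] at this
    exact (Finset.mem_filter.1 this).2 rfl
  · rintro ⟨⟨u', z'⟩, j⟩ h3 h4
    rw [Finset.mem_filter] at h3 h4
    by_cases h5 : (tU t ((u', z'), j)).1 ∈ S
    · have h6 : (tU t ((u', z'), j)).1.2 (u, i) = z (u, i) := by by_contra q; exact h4 ⟨h5, q⟩
      by_cases h7 : (u', j) = (u, i)
      · obtain ⟨rfl, rfl⟩ := Prod.mk.inj h7
        exact absurd (by rw [hinj _ _ _ h3.1 hS.1]) h3.2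
      by_cases h8 : (u', j) = t (u, i)
      · right
        have h9 : u' = (t (u, i)).1 := congrArg Prod.fst h8
        have h10 : j = (t (u, i)).2 := congrArg Prod.snd h8
        have h11 : z' = z + volt t (u, i) := hinj u' _ _ h3.1 (by rw [h9]; exact hy)
        rw [h11, h9, h10]; rfl
      · exfalso
        simp only [tU, Pi.add_apply, volt_ne ht h7 h8, add_zero] at h6
        exact h3.2 h6
    · have := hS.2.2 _ h3.1 h5
      simp only [Prod.mk.injEq] at this
      exact absurd (by rw [this.1.2]) h3.2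

theorem exists_B (ht : Function.Involutive t) (hn : NoSemi t) (hc : Conn t) (u0 : V) :
    ∃ (U : Type) (_ : Fintype U) (s : Dt U → Dt U) (p : U → V), Function.Involutive s ∧
      Cov s t p ∧ Simp s ∧ NoBr s ∧ Function.Surjective p := by
  let R : V × (Dt V → ZMod 3) → V × (Dt V → ZMod 3) → Prop := fun a b => ∃ i, (tU t (a, i)).1 = b
  let C : V × (Dt V → ZMod 3) → Prop := fun y => Relation.ReflTransGen R (u0, 0) y
  have hC : ∀ y i, C y → C (tU t (y, i)).1 := fun y i h => Relation.ReflTransGen.tail h ⟨i, rfl⟩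
  let s : Dt {y // C y} → Dt {y // C y} := fun d =>
    (⟨(tU t (d.1.1, d.2)).1, hC _ _ d.1.2⟩, (tU t (d.1.1, d.2)).2)
  have hs : Function.Involutive s := by
    rintro ⟨⟨y, hy⟩, i⟩
    simp only [s, Prod.mk.eta, tU_inv ht (y, i)]
  have hsimp := tU_simp ht hn
  refine ⟨{y // C y}, Fintype.ofFinite _, s, fun y => y.1.1, hs, fun d => rfl, ⟨?_, ?_⟩, ?_, ?_⟩
  · intro d q
    exact hsimp.1 (d.1.1, d.2) (congrArg Subtype.val q)
  · intro w i j q
    exact hsimp.2 w.1 i j (congrArg Subtype.val q)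
  · haveI := Fintype.ofFinite {y // C y}
    refine nobr_of ?_ ?_ hs
    · intro χ h
      have key : ∀ y (hy : C y), χ ⟨y, hy⟩ = χ ⟨(u0, 0), Relation.ReflTransGen.refl⟩ := by
        intro y hy
        induction hy with
        | refl => rfl
        | tail h1 h2 ih =>
          obtain ⟨i, rfl⟩ := h2
          rw [← ih]; exact (h (⟨_, h1⟩, i)).symm
      intro x y
      rw [key x.1 x.2, key y.1 y.2]
    · rintro ⟨S, e, h1, h2, h3⟩
      refine tU_nobd ht hn ⟨S.image Subtype.val, (e.1.1, e.2), Finset.mem_image_of_mem _ h1, ?_, ?_⟩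
      · intro q
        obtain ⟨y, hy, hy'⟩ := Finset.mem_image.1 q
        exact h2 (by rwa [show (s e).1 = y from Subtype.ext hy'.symm])
      · rintro ⟨y, i⟩ h4 h5
        obtain ⟨y', hy, rfl⟩ := Finset.mem_image.1 h4
        have := h3 (y', i) hy (fun q => h5 (Finset.mem_image_of_mem _ q))
        rw [← this]
  · have hcl : ∀ d : Dt V, (∃ z, C (d.1, z)) → ∃ z, C ((t d).1, z) :=
      fun d ⟨z, hz⟩ => ⟨_, hC (d.1, z) d.2 hz⟩
    have := hc (fun u => decide (∃ z, C (u, z))) (fun d => by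
      rw [decide_eq_decide]
      exact ⟨hcl d, fun q => by have := hcl (t d) q; rwa [ht] at this⟩)
    intro u
    have h1 := this u u0
    rw [decide_eq_decide] at h1
    obtain ⟨z, hz⟩ := h1.2 ⟨0, Relation.ReflTransGen.refl⟩
    exact ⟨⟨_, hz⟩, rfl⟩

end B

/-! Substitution of anti-vertices. -/

theorem two_ports {X : Type} (g : Fin 3 → X) (hg : ∀ i j, g i = g j → i = j) (d0 : X) :
    ∃ k, g k ≠ d0 := by
  by_cases h : g 0 = d0
  · exact ⟨1, fun q => absurd (hg 0 1 (h.trans q.symm)) (by decide)⟩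
  · exact ⟨0, h⟩

theorem third : ∀ k a : Fin 3, ∃ j, j ≠ k ∧ j ≠ a := by decide

theorem third' : ∀ k j i a : Fin 3, j ≠ k → j ≠ a → a ≠ k → i ≠ j → i = k ∨ i = a := by decide

theorem subst {V W : Type} [Fintype V] [Fintype W] {t : Dt V → Dt V}
    (ht : Function.Involutive t) (hn : NoSemi t) (hc : Conn t) (u0 : V)
    {r : Dt W → Dt W} (hr : Function.Involutive r) (hrn : NoSemi r) (hrb : NoBr r)
    (hrc : ¬ Col r) (f : W → V) (σ : W → Bool)
    (hf : ∀ d, if σ (r d).1 = σ d.1 then t (f d.1, d.2) = (f (r d).1, (r d).2)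
      else (f d.1, d.2) = (f (r d).1, (r d).2)) :
    ∃ (X : Type) (_ : Fintype X) (s : Dt X → Dt X) (p : X → V), Function.Involutive s ∧
      Cov s t p ∧ NoSemi s ∧ NoBr s ∧ ¬ Col s ∧ ((∀ w, σ w = false) → Simp s) := by
  obtain ⟨U, _, tB, p, hB, hcov, hsimp, hnb, hsurj⟩ := exists_B ht hn hc u0
  choose b hb using hsurj
  let Q : W × U → Prop := fun x => if σ x.1 then x.2 = b (f x.1) else x.2 ≠ b (f x.1)
  let raw : Dt W → Dt (W × U) := fun e =>
    if σ e.1 then ((e.1, b (f e.1)), e.2)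
    else ((e.1, (tB (b (f e.1), e.2)).1), (tB (b (f e.1), e.2)).2)
  have hraw : ∀ e, Q (raw e).1 := by
    intro e
    by_cases h : σ e.1
    · simp [Q, raw, h]
    · simp only [Q, raw, h, Bool.false_eq_true, if_false]
      exact hsimp.1 (b (f e.1), e.2)
  let port : Dt W → Dt {x // Q x} := fun e => (⟨(raw e).1, hraw e⟩, (raw e).2)
  have hp1 : ∀ e, (port e).1.1.1 = e.1 := by
    intro e; by_cases h : σ e.1 <;> simp [port, raw, h]
  have hpT : ∀ e, σ e.1 = true → ((port e).1.1.2, (port e).2) = (b (f e.1), e.2) := by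
    intro e h; simp [port, raw, h]
  have hpF : ∀ e, σ e.1 = false → ((port e).1.1.2, (port e).2) = tB (b (f e.1), e.2) := by
    intro e h; simp [port, raw, h]
  have hext : ∀ d d' : Dt {x // Q x}, d.1.1.1 = d'.1.1.1 → (d.1.1.2, d.2) = (d'.1.1.2, d'.2) →
      d = d' := by
    rintro ⟨⟨⟨a, y⟩, h⟩, i⟩ ⟨⟨⟨a', y'⟩, h'⟩, i'⟩ h1 h2
    simp only [Prod.mk.injEq] at h1 h2
    obtain ⟨rfl, rfl⟩ := h2
    subst h1; rfl
  have hinj : Function.Injective port := by
    rintro ⟨w, k⟩ ⟨w', k'⟩ h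
    have h1 : w = w' := by have := hp1 (w, k); rw [h, hp1] at this; exact this.symm
    subst h1
    cases hσ : σ w
    · have h2 := hpF (w, k) hσ
      rw [h, hpF (w, k') hσ] at h2
      have := hB.injective h2
      simp only [Prod.mk.injEq, true_and] at this
      rw [this]
    · have h2 := hpT (w, k) hσ
      rw [h, hpT (w, k') hσ] at h2
      simp only [Prod.mk.injEq, true_and] at h2
      rw [h2]
  have hQF : ∀ x : {x // Q x}, σ x.1.1 = false → x.1.2 ≠ b (f x.1.1) := by
    intro x h; have := x.2; simpa [Q, h] using this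
  have hQT : ∀ x : {x // Q x}, σ x.1.1 = true → x.1.2 = b (f x.1.1) := by
    intro x h; have := x.2; simpa [Q, h] using this
  have hnpF : ∀ d : Dt {x // Q x}, (¬ ∃ e, d = port e) → σ d.1.1.1 = false := by
    intro d hd
    by_contra h
    rw [Bool.not_eq_false] at h
    exact hd ⟨(d.1.1.1, d.2), hext _ _ (hp1 (d.1.1.1, d.2)).symm
      (by rw [hpT (d.1.1.1, d.2) h, hQT _ h])⟩
  have hnp : ∀ d : Dt {x // Q x}, (¬ ∃ e, d = port e) →
      (tB (d.1.1.2, d.2)).1 ≠ b (f d.1.1.1) := by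
    intro d hd h
    refine hd ⟨(d.1.1.1, (tB (d.1.1.2, d.2)).2), 
      hext _ _ (hp1 (d.1.1.1, (tB (d.1.1.2, d.2)).2)).symm ?_⟩
    rw [hpF (d.1.1.1, (tB (d.1.1.2, d.2)).2) (hnpF d hd), ← h]
    exact (hB _).symm
  have hQi : ∀ d : Dt {x // Q x}, (¬ ∃ e, d = port e) → Q (d.1.1.1, (tB (d.1.1.2, d.2)).1) := by
    intro d hd
    simp only [Q, hnpF d hd, Bool.false_eq_true, if_false]
    exact hnp d hd
  let s : Dt {x // Q x} → Dt {x // Q x} := fun d =>
    if h : ∃ e, d = port e then port (r h.choose)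
    else (⟨(d.1.1.1, (tB (d.1.1.2, d.2)).1), hQi d h⟩, (tB (d.1.1.2, d.2)).2)
  have hs1 : ∀ e, s (port e) = port (r e) := by
    intro e
    have h : ∃ e', port e = port e' := ⟨e, rfl⟩
    simp only [s, dif_pos h]
    rw [← hinj h.choose_spec]
  have hs2 : ∀ d, (¬ ∃ e, d = port e) → (s d).1.1.1 = d.1.1.1 ∧
      ((s d).1.1.2, (s d).2) = tB (d.1.1.2, d.2) := by
    intro d h
    simp only [s, dif_neg h]
    exact ⟨trivial, trivial⟩
  have hs3 : ∀ d, (¬ ∃ e, d = port e) → ¬ ∃ e, s d = port e := by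
    rintro d h ⟨e, he⟩
    have h1 := hs2 d h
    have h2 : e.1 = d.1.1.1 := by rw [← hp1, ← he, h1.1]
    have h3 := hpF e (by rw [h2]; exact hnpF d h)
    rw [← he, h1.2] at h3
    have h4 := congrArg Prod.fst (hB.injective h3)
    exact hQF d.1 (hnpF d h) (by rw [← h2]; exact h4)
  have hs : Function.Involutive s := by
    intro d
    by_cases h : ∃ e, d = port e
    · obtain ⟨e, rfl⟩ := h
      rw [hs1, hs1, hr]
    · have h1 := hs2 d h
      have h2 := hs2 _ (hs3 d h)
      exact hext _ _ (h2.1.trans h1.1) (by rw [h2.2, h1.2, hB])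
  have hsn : NoSemi s := by
    intro d q
    by_cases h : ∃ e, d = port e
    · obtain ⟨e, rfl⟩ := h
      rw [hs1] at q
      exact hrn e (hinj q)
    · have h1 := (hs2 d h).2
      rw [q] at h1
      exact hsimp.1 (d.1.1.2, d.2) (by rw [← h1])
  let P : Pieces s r :=
    { pr := fun x => x.1.1
      port := port
      hpr := hp1
      hport := hs1
      inj := hinj
      hint := fun d hd => (hs2 d (fun ⟨e, he⟩ => hd e he)).1
      clo := by
        intro w χ β d0 h1 h2 x hx
        cases hσ : σ w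
        · let χB : U → Bool := fun y => if h : Q (w, y) then χ ⟨(w, y), h⟩ else β
          have hr0 : χB (b (f w)) = β := by simp [χB, Q, hσ]
          have hv : ∀ y : {x // Q x}, y.1.1 = w → χB y.1.2 = χ y := by
            rintro ⟨⟨a, y⟩, hy⟩ rfl
            simp only [χB, dif_pos hy]
          have hroot : ∀ k, tB (b (f w), k) ≠ (d0.1.1.2, d0.2) →
              χB (tB (b (f w), k)).1 = β := by
            intro k hk
            rw [← hpF (w, k) hσ] at hk ⊢
            rw [hv _ (hp1 _)]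
            exact h2 k (fun q => hk (by rw [q]))
          have := hnb χB (d0.1.1.2, d0.2) (by
            rintro ⟨y, i⟩ he he'
            by_cases h3 : y = b (f w)
            · subst h3
              rw [hroot i (fun q => he' (by rw [← q, hB]))]; exact hr0
            by_cases h4 : (tB (y, i)).1 = b (f w)
            · have h5 : tB (b (f w), (tB (y, i)).2) = (y, i) := by rw [← h4]; exact hB _
              have h6 := hroot _ (by rw [h5]; exact he)
              rw [h5] at h6
              rw [h6, h4, hr0]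
            · have hq : Q (w, y) := by simpa [Q, hσ] using h3
              have hnport : ¬ ∃ e, ((⟨(w, y), hq⟩, i) : Dt {x // Q x}) = port e := by
                rintro ⟨e, h5⟩
                have h6 : e.1 = w := by rw [← hp1, ← h5]
                have h7 := hpF e (by rw [h6]; exact hσ)
                rw [← h5] at h7
                exact h4 (by rw [show (y, i) = _ from h7, hB, h6])
              have h5 := hs2 _ hnport
              have h6 := h1 (⟨(w, y), hq⟩, i) rfl (fun e q => hnport ⟨e, q⟩)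
                (fun q => he (by rw [← q])) (fun q => he' (by
                  have h7 : d0 = s (⟨(w, y), hq⟩, i) := by rw [q, hs]
                  rw [h7, h5.2, hB]))
              rw [← hv _ rfl, ← hv _ h5.1] at h6
              have h8 := congrArg Prod.fst h5.2
              simp only at h8
              rw [← h8]; exact h6) x.1.2 (b (f w))
          rw [hv x hx, hr0] at this
          exact this
        · obtain ⟨k, hk⟩ := two_ports (fun k => port (w, k))
            (fun i j q => by simpa using hinj q) d0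
          rw [← h2 k hk]
          congr 1
          have h3 := hext (x, k) (port (w, k)) (by rw [hp1]; exact hx)
            (by rw [hpT _ hσ, hQT x (by rw [hx]; exact hσ), hx])
          rw [← h3] }
  have htype : ∀ e, (p (port e).1.1.2, (port e).2) =
      if σ e.1 then (f e.1, e.2) else t (f e.1, e.2) := by
    intro e
    cases hσ : σ e.1
    · have h1 := hpF e hσ
      have h2 := hcov (b (f e.1), e.2)
      rw [← h1, hb] at h2
      simpa using h2.symm
    · have h1 := hpT e hσ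
      simp only [Prod.mk.injEq] at h1
      simp [h1.1, h1.2, hb]
  refine ⟨{x // Q x}, Fintype.ofFinite _, s, fun x => p x.1.2, hs, ?_, hsn,
    P.nobr hs hr hrn hrb, fun q => hrc (@Pieces.col _ _ (Fintype.ofFinite _) _ _ P hs hsn q),
    fun hσ => ?_⟩
  · intro d
    by_cases h : ∃ e, d = port e
    · obtain ⟨e, rfl⟩ := h
      have h1 := hf e
      rw [hs1, htype, htype]
      cases h2 : σ e.1 <;> cases h3 : σ (r e).1 <;> simp only [h2, h3] at h1 <;>
        simp only [Bool.false_eq_true, Bool.true_eq_false, if_true, if_false] at h1 ⊢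
      · rw [← h1]
      · rw [ht, h1]
      · rw [h1]
      · exact h1
    · have h1 := (hs2 d h).2
      have h2 := hcov (d.1.1.2, d.2)
      rw [← h1] at h2
      exact h2
  · have hloop : ∀ e, (r e).1 ≠ e.1 := by
      rintro ⟨w, k⟩ q
      have h3 : ∃ j, j ≠ k ∧ j ≠ (r (w, k)).2 := third _ _
      obtain ⟨j, hj1, hj2⟩ := h3
      have hk2 : (r (w, k)).2 ≠ k := fun q' => hrn (w, k) (Prod.ext q q')
      have hcases : ∀ i, i ≠ j → (r (w, i)).1 = w := by
        intro i hi
        have : i = k ∨ i = (r (w, k)).2 := third' _ _ _ _ hj1 hj2 hk2 hi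
        rcases this with rfl | h
        · exact q
        · have : (w, i) = r (w, k) := Prod.ext q.symm h
          rw [this, hr]
      have h4 := hrb (fun x => decide (x = w)) (w, j) (by
        rintro ⟨x, i⟩ h5 h6
        rw [decide_eq_decide]
        constructor
        · rintro rfl
          exact hcases i (fun q' => h5 (by rw [q']))
        · intro h7
          have h8 : (r (x, i)).2 ≠ j := fun q' =>
            h6 (by rw [show (w, j) = r (x, i) from Prod.ext h7.symm q'.symm, hr])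
          have h9 := hcases _ h8
          rw [show (w, (r (x, i)).2) = r (x, i) from Prod.ext h7.symm rfl, hr] at h9
          exact h9) (r (w, j)).1 w
      have h5 : (r (w, j)).1 = w := by simpa using h4
      have h6 : (r (w, j)).2 ≠ j := fun q' => hrn (w, j) (Prod.ext h5 q')
      have h7 : (r (w, j)).2 = k ∨ (r (w, j)).2 = (r (w, k)).2 := third' _ _ _ _ hj1 hj2 hk2 h6
      rcases h7 with h7 | h7
      · have h8 : r (w, j) = (w, k) := Prod.ext h5 h7
        have h9 : r (w, k) = (w, j) := by rw [← h8, hr]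
        exact hj2 (by rw [h9])
      · have h8 : r (w, j) = r (w, k) := Prod.ext (h5.trans q.symm) h7
        exact hj1 (by simpa using hr.injective h8)
    have hout : ∀ e, (s (port e)).1.1.1 ≠ (port e).1.1.1 := by
      intro e; rw [hs1, hp1, hp1]; exact hloop e
    constructor
    · intro d q
      by_cases h : ∃ e, d = port e
      · obtain ⟨e, rfl⟩ := h
        exact hout e (by rw [q])
      · have h1 := congrArg Prod.fst (hs2 d h).2
        rw [q] at h1
        exact hsimp.1 (d.1.1.2, d.2) h1.symm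
    · intro x i j q
      have hroot : ∀ i e, (x, i) = port e → (tB (x.1.2, i)).1 = b (f x.1.1) := by
        intro i e h
        have h1 := hpF e (hσ _)
        have h2 := hp1 e
        rw [← h] at h1 h2
        rw [show (x.1.2, i) = _ from h1, hB, ← h2]
      by_cases h : ∃ e, (x, i) = port e <;> by_cases h' : ∃ e, (x, j) = port e
      · obtain ⟨e, h⟩ := h
        obtain ⟨e', h'⟩ := h'
        exact hsimp.2 x.1.2 i j ((hroot i e h).trans (hroot j e' h').symm)
      · obtain ⟨e, h⟩ := h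
        have h1 := hout e
        rw [← h, q] at h1
        exact absurd (hs2 _ h').1 h1
      · obtain ⟨e, h'⟩ := h'
        have h1 := hout e
        rw [← h', ← q] at h1
        exact absurd (hs2 _ h).1 h1
      · have h1 := congrArg Prod.fst (hs2 _ h).2
        have h2 := congrArg Prod.fst (hs2 _ h').2
        simp only at h1 h2
        exact hsimp.2 x.1.2 i j (by rw [← h1, ← h2, q])

/-! The Petersen graph. -/

def stp (b : Bool) : Fin 5 := if b then 1 else 2

def pet (d : Dt (Bool × Fin 5)) : Dt (Bool × Fin 5) :=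
  if d.2 = 0 then ((!d.1.1, d.1.2), 0)
  else if d.2 = 1 then ((d.1.1, d.1.2 + stp d.1.1), 2) else ((d.1.1, d.1.2 - stp d.1.1), 1)

theorem pet_inv : Function.Involutive pet := by
  intro d; revert d; decide

theorem pet_ns : NoSemi pet := by
  intro d; revert d; decide

set_option synthInstance.maxSize 100000 in
theorem pet_aux : ∀ (a0 a1 a2 a3 a4 b0 b1 b2 b3 b4 : Bool) (d0 : Dt (Bool × Fin 5)),
    (∀ d : Dt (Bool × Fin 5), d ≠ d0 → d ≠ pet d0 →
      (if d.1.1 then ![a0, a1, a2, a3, a4] else ![b0, b1, b2, b3, b4]) d.1.2 =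
      (if (pet d).1.1 then ![a0, a1, a2, a3, a4] else ![b0, b1, b2, b3, b4]) (pet d).1.2) →
    a1 = a0 ∧ a2 = a0 ∧ a3 = a0 ∧ a4 = a0 ∧ b0 = a0 ∧ b1 = a0 ∧ b2 = a0 ∧ b3 = a0 ∧ b4 = a0 := by
  decide +kernel

theorem pet_nb : NoBr pet := by
  intro χ d0 h
  have key : ∀ x : Bool × Fin 5, (if x.1 then
      ![χ (true, 0), χ (true, 1), χ (true, 2), χ (true, 3), χ (true, 4)] else
      ![χ (false, 0), χ (false, 1), χ (false, 2), χ (false, 3), χ (false, 4)]) x.2 = χ x := by
    rintro ⟨b, z⟩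
    cases b <;> fin_cases z <;> rfl
  obtain ⟨h1, h2, h3, h4, h5, h6, h7, h8, h9⟩ := pet_aux _ _ _ _ _ _ _ _ _ _ d0
    (fun d q q' => by rw [key, key]; exact h d q q')
  have : ∀ x, χ x = χ (true, 0) := by
    rintro ⟨b, z⟩
    cases b <;> fin_cases z <;> first | rfl | assumption
  intro x y; rw [this, this y]

set_option synthInstance.maxSize 100000 in
theorem pet_col_aux : ∀ b0 b1 : Fin 3, b0 ≠ b1 → ∀ b2, b1 ≠ b2 → ∀ b3, b2 ≠ b3 → ∀ b4, b3 ≠ b4 →
    b4 ≠ b0 → ∀ a0, a0 ≠ b0 → a0 ≠ b4 → ∀ a1, a1 ≠ b1 → a1 ≠ b0 → ∀ a2, a2 ≠ b2 → a2 ≠ b1 →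
    ∀ a3, a3 ≠ b3 → a3 ≠ b2 → ∀ a4, a4 ≠ b4 → a4 ≠ b3 →
    ∀ c0, a0 ≠ c0 → a2 ≠ c0 → ∀ c2, a2 ≠ c2 → a4 ≠ c2 → c2 ≠ c0 → ∀ c4, a4 ≠ c4 → a1 ≠ c4 →
    c4 ≠ c2 → ∀ c1, a1 ≠ c1 → a3 ≠ c1 → c1 ≠ c4 → ∀ c3, a3 ≠ c3 → a0 ≠ c3 → c3 ≠ c1 →
    c0 ≠ c3 → False := by
  decide +kernel

theorem pet_nc : ¬ Col pet := by
  rintro ⟨c, h1, h2⟩
  have ha : ∀ z, c ((false, z), 0) = c ((true, z), 0) := fun z => h1 ((true, z), 0)
  have hb : ∀ b z, c ((b, z), 2) = c ((b, z - stp b), 1) := fun b z => (h1 ((b, z), 2)).symm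
  have n01 : ∀ w, c (w, 0) ≠ c (w, 1) := fun w q => absurd (h2 w _ _ q) (by decide)
  have n02 : ∀ w, c (w, 0) ≠ c (w, 2) := fun w q => absurd (h2 w _ _ q) (by decide)
  have n12 : ∀ w, c (w, 1) ≠ c (w, 2) := fun w q => absurd (h2 w _ _ q) (by decide)
  have t1 : ∀ z, c ((true, z), 0) ≠ c ((true, z), 1) := fun z => n01 _
  have t2 : ∀ z, c ((true, z), 0) ≠ c ((true, z - 1), 1) := fun z => hb true z ▸ n02 _
  have t3 : ∀ z, c ((true, z - 1), 1) ≠ c ((true, z), 1) := fun z => hb true z ▸ (n12 _).symm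
  have f1 : ∀ z, c ((true, z), 0) ≠ c ((false, z), 1) := fun z => ha z ▸ n01 _
  have f2 : ∀ z, c ((true, z), 0) ≠ c ((false, z - 2), 1) := fun z => by
    rw [← ha]; exact hb false z ▸ n02 _
  have f3 : ∀ z, c ((false, z), 1) ≠ c ((false, z - 2), 1) := fun z => hb false z ▸ n12 _
  exact pet_col_aux _ _ (t3 1) _ (t3 2) _ (t3 3) _ (t3 4) (t3 0) _ (t1 0) (t2 0) _ (t1 1) (t2 1)
    _ (t1 2) (t2 2) _ (t1 3) (t2 3) _ (t1 4) (t2 4) _ (f1 0) (f2 2) _ (f1 2) (f2 4) (f3 2)
    _ (f1 4) (f2 1) (f3 4) _ (f1 1) (f2 3) (f3 1) _ (f1 3) (f2 0) (f3 3) (f3 0)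

theorem bridge {V : Type} [Fintype V] {t : Dt V → Dt V}
    (ht : Function.Involutive t) (hn : NoSemi t) (h : ∃ S e, Bd1 t S e) :
    ∃ (W : Type) (_ : Fintype W) (r : Dt W → Dt W) (f : W → V) (σ : W → Bool),
      Function.Involutive r ∧ NoSemi r ∧ NoBr r ∧ ¬ Col r ∧
      ∀ d, if σ (r d).1 = σ d.1 then t (f d.1, d.2) = (f (r d).1, (r d).2)
        else (f d.1, d.2) = (f (r d).1, (r d).2) := by
  obtain ⟨S, e, hS, hmin⟩ := minimal ht h
  have hin : ∀ a : Dt V, a.1 ∈ S → a ≠ e → (t a).1 ∈ S := by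
    intro a h1 h2; by_contra q; exact h2 (hS.2.2 a h1 q)
  have hte : ∀ a : Dt V, a.1 ∈ S → t a ≠ e := by
    intro a h1 q; exact hS.2.1 (by rw [← q, ht]; exact h1)
  obtain ⟨i0, hi0⟩ := other e.2
  let g : Dt V := (e.1, i0)
  have hge : g ≠ e := fun q => hi0 (congrArg Prod.snd q)
  have hg1 : g.1 ∈ S := hS.1
  have hg2 : (t g).1 ∈ S := hin g hg1 hge
  have hg3 : t g ≠ e := hte g hg1
  have hg4 : t g ≠ g := hn g
  let sh : Dt V → Bool → Fin 5 := fun a b => if a = g then stp b else if a = t g then - stp b else 0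
  have hsh : ∀ a b, sh (t a) b = - sh a b := by
    intro a b
    by_cases h1 : a = g
    · simp [sh, h1, hg4]
    by_cases h2 : a = t g
    · simp [sh, h2, hg4, ht g]
    · have h3 : t a ≠ g := fun q => h2 (by rw [← q, ht])
      have h4 : t a ≠ t g := fun q => h1 (ht.injective q)
      simp [sh, h1, h2, h3, h4]
  let W := {u // u ∈ S} × (Bool × Fin 5)
  let r : Dt W → Dt W := fun d =>
    if h : (d.1.1.1, d.2) = e then ((d.1.1, (!d.1.2.1, d.1.2.2)), d.2)
    else ((⟨(t (d.1.1.1, d.2)).1, hin _ d.1.1.2 h⟩,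
      (d.1.2.1, d.1.2.2 + sh (d.1.1.1, d.2) d.1.2.1)), (t (d.1.1.1, d.2)).2)
  have hr1 : ∀ d : Dt W, (d.1.1.1, d.2) = e → r d = ((d.1.1, (!d.1.2.1, d.1.2.2)), d.2) := by
    intro d h; simp only [r, dif_pos h]
  have hr2 : ∀ d : Dt W, (d.1.1.1, d.2) ≠ e → ((r d).1.1.1, (r d).2) = t (d.1.1.1, d.2) ∧
      (r d).1.2 = (d.1.2.1, d.1.2.2 + sh (d.1.1.1, d.2) d.1.2.1) := by
    intro d h; simp only [r, dif_neg h]; exact ⟨trivial, trivial⟩
  have hext : ∀ d d' : Dt W, (d.1.1.1, d.2) = (d'.1.1.1, d'.2) → d.1.2 = d'.1.2 → d = d' := by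
    rintro ⟨⟨⟨a, h⟩, y⟩, i⟩ ⟨⟨⟨a', h'⟩, y'⟩, i'⟩ h1 h2
    simp only [Prod.mk.injEq] at h1 h2
    obtain ⟨rfl, rfl⟩ := h1
    subst h2; rfl
  have hr : Function.Involutive r := by
    intro d
    by_cases h : (d.1.1.1, d.2) = e
    · rw [hr1 d h, hr1 ((d.1.1, (!d.1.2.1, d.1.2.2)), d.2) h]; simp
    · have h1 := hr2 d h
      have h2 := hr2 (r d) (by rw [h1.1]; exact hte _ d.1.1.2)
      refine hext _ _ (by rw [h2.1, h1.1, ht]) ?_
      rw [h2.2, h1.1, h1.2, hsh]; simp
  have hrn : NoSemi r := by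
    intro d q
    by_cases h : (d.1.1.1, d.2) = e
    · rw [hr1 d h] at q
      have := congrArg (fun x => x.1.2.1) q
      simp at this
    · have h1 := (hr2 d h).1
      rw [q] at h1
      exact hn _ h1.symm
  let base : Fin 3 → Dt V := ![e, g, t g]
  have hbase : ∀ k, (base k).1 ∈ S := by
    intro k; fin_cases k
    · exact hS.1
    · exact hg1
    · exact hg2
  have hbinj : ∀ i j, base i = base j → i = j := by
    intro i j q
    fin_cases i <;> fin_cases j <;> first | rfl | exact absurd q hge | exact absurd q.symm hge | exact absurd q hg3 | exact absurd q.symm hg3 | exact absurd q hg4 | exact absurd q.symm hg4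
  let port : Dt (Bool × Fin 5) → Dt W := fun x => ((⟨(base x.2).1, hbase _⟩, x.1), (base x.2).2)
  have hnp : ∀ d : Dt W, (∀ x, d ≠ port x) ↔ ∀ k, (d.1.1.1, d.2) ≠ base k := by
    intro d
    constructor
    · intro h k q
      exact h (d.1.2, k) (hext _ _ q rfl)
    · intro h x q
      exact h x.2 (by rw [q])
  have hint : ∀ d : Dt W, (∀ x, d ≠ port x) → (r d).1.2 = d.1.2 := by
    intro d hd
    rw [hnp] at hd
    have h1 : (d.1.1.1, d.2) ≠ g := hd 1
    have h2 : (d.1.1.1, d.2) ≠ t g := hd 2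
    rw [(hr2 d (hd 0)).2]
    simp [sh, h1, h2]
  let P : Pieces r pet :=
    { pr := fun x => x.2
      port := port
      hpr := fun _ => rfl
      hport := by
        rintro ⟨⟨b, z⟩, k⟩
        fin_cases k
        · rw [hr1 _ rfl]; rfl
        · have h1 := hr2 (port ((b, z), 1)) hge
          refine hext _ _ h1.1 (h1.2.trans ?_)
          show (b, z + sh g b) = (b, z + stp b)
          simp [sh]
        · have h1 := hr2 (port ((b, z), 2)) hg3
          refine hext _ _ (h1.1.trans (ht g)) (h1.2.trans ?_)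
          show (b, z + sh (t g) b) = (b, z - stp b)
          simp [sh, hg4, sub_eq_add_neg]
      inj := by
        rintro ⟨w, k⟩ ⟨w', k'⟩ q
        have h1 : w = w' := congrArg (fun x => x.1.2) q
        have h2 : base k = base k' := congrArg (fun x : Dt W => (x.1.1.1, x.2)) q
        rw [h1, hbinj _ _ h2]
      hint := hint
      clo := by
        intro w χ β d0 h1 h2 x hx
        by_contra hne
        let T := S.filter (fun u => ∃ h : u ∈ S, χ (⟨u, h⟩, w) ≠ β)
        have hT : ∀ u (h : u ∈ S), u ∈ T ↔ χ (⟨u, h⟩, w) ≠ β := by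
          intro u h
          simp only [T, Finset.mem_filter]
          exact ⟨fun q => q.2.2, fun q => ⟨h, h, q⟩⟩
        refine hmin T (Finset.filter_subset _ _) ⟨x.1.1, (hT _ x.1.2).2 (by rw [← hx]; exact hne)⟩
          (fun q => ?_) (d0.1.1.1, d0.2) (fun a h3 h4 => ?_)
        · obtain ⟨k, hk⟩ := two_ports (fun k => port (w, k)) (fun i j q => hbinj _ _
            (congrArg (fun x : Dt W => (x.1.1.1, x.2)) q)) d0
          exact (hT _ (hbase k)).1 (q.symm ▸ hbase k) (h2 k hk)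
        · have haS : a.1 ∈ S := (Finset.mem_filter.1 h3).1
          by_cases h5 : ∃ k, a = base k
          · obtain ⟨k, rfl⟩ := h5
            left
            by_contra q
            exact (hT _ haS).1 h3 (h2 k (fun q' => q (by rw [← q'])))
          · push Not at h5
            by_contra q
            push Not at q
            have h6 : ∀ y, (((⟨a.1, haS⟩, w), a.2) : Dt W) ≠ port y := (hnp _).2 h5
            have h7 := hr2 ((⟨a.1, haS⟩, w), a.2) (h5 0)
            have h8 := h1 ((⟨a.1, haS⟩, w), a.2) rfl h6 (fun q' => q.1 (by rw [← q']))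
              (fun q' => q.2 (by
                have h9 : d0 = r ((⟨a.1, haS⟩, w), a.2) := by rw [q', hr]
                rw [h9, h7.1, ht]))
            have h9 : (r ((⟨a.1, haS⟩, w), a.2)).1 = (⟨(t a).1, hin a haS (h5 0)⟩, w) :=
              Prod.ext (Subtype.ext (congrArg Prod.fst h7.1)) (hint _ h6)
            rw [h9] at h8
            exact h4 ((hT _ _).2 (by rw [← h8]; exact (hT _ haS).1 h3)) }
  refine ⟨W, inferInstance, r, fun x => x.1.1, fun x => x.2.1, hr, hrn,
    P.nobr hr pet_inv pet_ns pet_nb, fun q => pet_nc (P.col hr hrn q), fun d => ?_⟩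
  by_cases h : (d.1.1.1, d.2) = e
  · rw [hr1 d h]; simp
  · have h1 := hr2 d h
    have h2 : (r d).1.2.1 = d.1.2.1 := by rw [h1.2]
    rw [if_pos h2]
    exact h1.1.symm

theorem nonempty_of {V : Type} {t : Dt V → Dt V} (h : ¬ Col t) : Nonempty V := by
  by_contra q
  exact h ⟨fun _ => 0, fun _ => rfl, fun w => absurd ⟨w⟩ q⟩

theorem Cov.comp {X W V : Type} {s : Dt X → Dt X} {r : Dt W → Dt W} {t : Dt V → Dt V}
    {p : X → W} {q : W → V} (h1 : Cov s r p) (h2 : Cov r t q) : Cov s t (q ∘ p) := by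
  intro d
  have := h2 (p d.1, d.2)
  rw [h1 d] at this
  exact this

theorem step3 {V : Type} [Fintype V] {t : Dt V → Dt V} (ht : Function.Involutive t)
    (hn : NoSemi t) (hb : NoBr t) (hc : ¬ Col t) :
    ∃ (X : Type) (_ : Fintype X) (s : Dt X → Dt X) (p : X → V), Function.Involutive s ∧
      Cov s t p ∧ NoBr s ∧ ¬ Col s ∧ Simp s := by
  obtain ⟨u0⟩ := nonempty_of hc
  obtain ⟨X, _, s, p, h1, h2, _, h4, h5, h6⟩ := subst ht hn
    (fun χ h => hb χ (u0, 0) (fun d _ _ => h d)) u0 ht hn hb hc id (fun _ => false)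
    (fun d => by simp)
  exact ⟨X, inferInstance, s, p, h1, h2, h4, h5, h6 (fun _ => rfl)⟩

theorem step2 {V : Type} [Fintype V] {t : Dt V → Dt V} (ht : Function.Involutive t)
    (hn : NoSemi t) (hb : Conn t) (hc : ¬ Col t) :
    ∃ (X : Type) (_ : Fintype X) (s : Dt X → Dt X) (p : X → V), Function.Involutive s ∧
      Cov s t p ∧ NoBr s ∧ ¬ Col s ∧ Simp s := by
  by_cases h : ∃ S e, Bd1 t S e
  · obtain ⟨u0⟩ := nonempty_of hc
    obtain ⟨W, _, r, f, σ, h1, h2, h3, h4, h5⟩ := bridge ht hn h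
    obtain ⟨Y, _, s, p, g1, g2, g3, g4, g5, _⟩ := subst ht hn hb u0 h1 h2 h3 h4 f σ h5
    obtain ⟨X, _, s', p', k1, k2, k3, k4, k5⟩ := step3 g1 g3 g4 g5
    exact ⟨X, inferInstance, s', _, k1, k2.comp g2, k3, k4, k5⟩
  · exact step3 ht hn (nobr_of hb h ht) hc

theorem step1 {V : Type} [Fintype V] {t : Dt V → Dt V} (ht : Function.Involutive t)
    (hb : Conn t) (hc : ¬ Col t) :
    ∃ (X : Type) (_ : Fintype X) (s : Dt X → Dt X) (p : X → V), Function.Involutive s ∧
      Cov s t p ∧ NoBr s ∧ ¬ Col s ∧ Simp s := by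
  by_cases hn : NoSemi t
  · exact step2 ht hn hb hc
  obtain ⟨e, he⟩ : ∃ e, t e = e := by
    by_contra q; exact hn (fun d h => q ⟨d, h⟩)
  let r : Dt (V × Bool) → Dt (V × Bool) := fun d =>
    (((t (d.1.1, d.2)).1, if t (d.1.1, d.2) = (d.1.1, d.2) then !d.1.2 else d.1.2),
      (t (d.1.1, d.2)).2)
  have hr : Function.Involutive r := by
    rintro ⟨⟨u, b⟩, i⟩
    by_cases h : t (u, i) = (u, i)
    · simp [r, h]
    · have h' : ¬ (u, i) = t (u, i) := fun q => h q.symm
      simp [r, h, h', ht (u, i)]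
  have hrn : NoSemi r := by
    rintro ⟨⟨u, b⟩, i⟩ q
    by_cases h : t (u, i) = (u, i)
    · simp [r, h] at q
    · simp only [r, h, if_false, Prod.mk.injEq] at q
      exact h (Prod.ext q.1.1 q.2)
  have hrc : Conn r := by
    intro χ h
    have h1 : ∀ b u w, χ (u, b) = χ (w, b) := fun b => hb (fun u => χ (u, b)) (by
      rintro ⟨u, i⟩
      by_cases q : t (u, i) = (u, i)
      · rw [q]
      · simpa [r, q] using h ((u, b), i))
    have h2 : ∀ b, χ (e.1, b) = χ (e.1, !b) := fun b => by simpa [r, he] using h ((e.1, b), e.2)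
    rintro ⟨u, b⟩ ⟨w, b'⟩
    by_cases q : b' = b
    · rw [q]; exact h1 _ _ _
    · rw [h1 b u e.1, h2, h1 _ _ w, Bool.eq_not_iff.2 q]
  have hrcol : ¬ Col r := by
    rintro ⟨c, h1, h2⟩
    refine hc ⟨fun d => c ((d.1, true), d.2), ?_, fun w => h2 (w, true)⟩
    rintro ⟨u, i⟩
    by_cases q : t (u, i) = (u, i)
    · rw [q]
    · simpa [r, q] using h1 ((u, true), i)
  obtain ⟨X, _, s, p, k1, k2, k3, k4, k5⟩ := step2 hr hrn hrc hrcol
  exact ⟨X, inferInstance, s, _, k1, k2.comp (q := Prod.fst) (fun d => rfl), k3, k4, k5⟩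

theorem conn_of {X : Type} (H : SimpleGraph X) [Nonempty X]
    (h : ∀ χ : X → Bool, (∀ x y, H.Adj x y → χ x = χ y) → ∀ x y, χ x = χ y) : H.Connected := by
  refine ⟨fun x y => ?_⟩
  have := h (fun z => decide (H.Reachable x z)) (fun a b hab => by
    rw [decide_eq_decide]
    exact ⟨fun q => q.trans hab.reachable, fun q => q.trans hab.symm.reachable⟩) y x
  simpa using this

theorem result (V D : Type) [Finite V] [Finite D] (v : D → V) (inv : D → D)
    (hinv : Function.Involutive inv) (hcubic : ∀ u, Nat.card {d // v d = u} = 3)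
    (hconn : ∀ u w, Relation.ReflTransGen (fun a b => ∃ d, v d = a ∧ v (inv d) = b) u w)
    (hnc : ¬ Colourable v inv) :
    ∃ (X : Type) (_ : Finite X) (H : SimpleGraph X),
      Covers H v inv ∧ TwoConnected H ∧ ¬ EdgeColourable H := by
  haveI := Fintype.ofFinite V
  have hE : ∀ u, Nonempty (Fin 3 ≃ {d // v d = u}) := fun u =>
    ⟨(Finite.equivFinOfCardEq (hcubic u)).symm⟩
  let E : Dt V ≃ D := ((Equiv.sigmaEquivProd V (Fin 3)).symm.trans
    (Equiv.sigmaCongrRight (fun u => (hE u).some))).trans (Equiv.sigmaFiberEquiv v)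
  have hv : ∀ a, v (E a) = a.1 := fun a => ((hE a.1).some a.2).2
  have hv' : ∀ d, (E.symm d).1 = v d := fun d => by rw [← hv, Equiv.apply_symm_apply]
  let t : Dt V → Dt V := fun a => E.symm (inv (E a))
  have ht : Function.Involutive t := fun a => by simp [t, hinv (E a)]
  have hc : Conn t := by
    intro χ h x y
    induction hconn x y with
    | refl => rfl
    | tail _ h2 ih =>
      obtain ⟨d, rfl, rfl⟩ := h2
      have := h (E.symm d)
      simp only [t, Equiv.apply_symm_apply, hv'] at this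
      exact ih.trans this
  have hcol : ¬ Col t := by
    rintro ⟨c, h1, h2⟩
    refine hnc ⟨fun d => c (E.symm d), fun d => by simpa [t] using h1 (E.symm d), ?_⟩
    intro d d' h3 h4
    have h5 : (E.symm d).1 = (E.symm d').1 := by rw [hv', hv', h3]
    refine E.symm.injective (Prod.ext h5 (h2 (E.symm d).1 _ _ ?_))
    rw [show ((E.symm d).1, (E.symm d').2) = E.symm d' from Prod.ext h5 rfl]
    exact h4
  obtain ⟨X, _, s, p, hs, hcov, hnb, hsc, hsimp⟩ := step1 ht hc hcol
  obtain ⟨x0⟩ := nonempty_of hsc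
  haveI : Nonempty X := ⟨x0⟩
  let H : SimpleGraph X :=
    { Adj := fun x y => ∃ i, (s (x, i)).1 = y
      symm := ⟨by
        rintro x y ⟨i, rfl⟩
        exact ⟨(s (x, i)).2, by rw [Prod.mk.eta, hs]⟩⟩
      loopless := ⟨fun x ⟨i, h⟩ => hsimp.1 (x, i) h⟩ }
  have hadj : ∀ d : Dt X, H.Adj d.1 (s d).1 := fun d => ⟨d.2, rfl⟩
  refine ⟨X, inferInstance, H, ?_, ⟨?_, ?_, ?_⟩, ?_⟩
  · let ix : H.Dart → Fin 3 := fun a => a.adj.choose
    have hix : ∀ a : H.Dart, (s (a.fst, ix a)).1 = a.snd := fun a => a.adj.choose_spec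
    refine ⟨p, fun a => E (p a.fst, ix a), fun x => ⟨?_, ?_, ?_⟩, fun a => ?_⟩
    · intro a ha
      simp only [Set.mem_setOf_eq] at ha ⊢
      rw [hv, ha]
    · intro a ha a' ha' q
      simp only [Set.mem_setOf_eq] at ha ha'
      have h1 : ix a = ix a' := congrArg Prod.snd (E.injective q)
      ext
      · rw [ha, ha']
      · rw [← hix, ← hix, ha, ha', h1]
    · intro d hd
      simp only [Set.mem_setOf_eq] at hd
      refine ⟨⟨(x, (s (x, (E.symm d).2)).1), hadj (x, _)⟩, rfl, ?_⟩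
      have h1 := hsimp.2 x _ _ (hix ⟨(x, (s (x, (E.symm d).2)).1), hadj (x, _)⟩)
      simp only [h1]
      rw [← hd, ← hv', Prod.mk.eta, Equiv.apply_symm_apply]
    · have h1 := hcov (a.fst, ix a)
      have h2 : ix a.symm = (s (a.fst, ix a)).2 := by
        refine hsimp.2 a.snd _ _ ?_
        have h3 : (s (a.snd, ix a.symm)).1 = a.fst := hix a.symm
        rw [h3, ← hix a, Prod.mk.eta, hs]
      have h3 : inv (E (p a.fst, ix a)) = E (t (p a.fst, ix a)) := by simp [t]
      simp only at h1 ⊢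
      rw [h3, h1, h2, hix]
      rfl
  · have := Nat.card_le_card_of_injective (fun i : Fin 3 => (s (x0, i)).1)
      (fun i j q => hsimp.2 x0 i j q)
    simpa using this
  · exact conn_of H (fun χ h => hnb χ (x0, 0) (fun d _ _ => h _ _ (hadj d)))
  · intro r
    haveI : Nonempty {x | x ≠ r} := ⟨⟨_, hsimp.1 (r, 0)⟩⟩
    refine conn_of _ (fun χ h => ?_)
    obtain ⟨k, β, hk⟩ := maj (fun i => χ ⟨_, hsimp.1 (r, i)⟩)
    let χ' : X → Bool := fun x => if q : x ≠ r then χ ⟨x, q⟩ else β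
    have hχ : ∀ y : {x | x ≠ r}, χ' y.1 = χ y := fun y => by
      have : y.1 ≠ r := y.2
      simp only [χ', dif_pos this]
    have hr0 : χ' r = β := by simp [χ']
    have hroot : ∀ j, j ≠ k → χ' (s (r, j)).1 = β := fun j hj =>
      (hχ ⟨_, hsimp.1 (r, j)⟩).trans (hk j hj)
    have := hnb χ' (r, k) (by
      rintro ⟨y, i⟩ h1 h2
      by_cases h3 : y = r
      · subst h3
        rw [hroot i (fun q => h1 (by rw [q]))]; exact hr0
      by_cases h4 : (s (y, i)).1 = r
      · have h5 : s (r, (s (y, i)).2) = (y, i) := by rw [← h4]; exact hs _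
        have h6 := hroot (s (y, i)).2 (fun q => h2 (by rw [← h5, q]))
        rw [h5] at h6
        rw [h6, h4, hr0]
      · exact (hχ ⟨y, h3⟩).trans ((h ⟨y, h3⟩ ⟨_, h4⟩ (hadj (y, i))).trans (hχ ⟨_, h4⟩).symm))
    intro x y
    rw [← hχ, ← hχ]; exact this _ _
  · rintro ⟨c, hc⟩
    refine hsc ⟨fun d => c s(d.1, (s d).1), fun d => by simp only [hs d, Sym2.eq_swap], ?_⟩
    intro w i j q
    exact hsimp.2 w i j (hc w _ _ (hadj (w, i)) (hadj (w, j)) q)

end Pool.Agent.Results.MP_faaf88_co.Yes
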